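import Pool.Agent.W900.CH.NELev
import Pool.Agent.Results.MP_a54059_lc.GaugeThreshold

/-!
# How many strings of a random oracle have to be changed to put `PP` into the polynomial hierarchy?

The number of changes is measured by a function `g`: the oracle `A` is obtained from `O` by changing,
for all large `n`, at most `g n` of the strings of length at most `n`. If `g n ≤ 2 ^ (n ^ ε)` for
every `ε > 0` and infinitely many `n`, then `PP^A ⊄ PH^A` for almost every oracle `O` and all oracles `A`
that are obtained from `O` by at most `g` changes, however these changes depend on `O`.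
Otherwise every oracle `O` can be changed, by at most `g` changes, into an oracle `A` with
`PSPACE^A = P^A` (so `PP^A = P^A`).

So the threshold is exactly at the functions which are not subexponential.
-/

set_option autoImplicit false

namespace Pool.Agent.Results.MP_a54059_lc.ChangedStrings

open Pool.Agent.NPC Pool.Agent.H620R2.Gauge Pool.Agent.H943R3.PP Pool.Agent.W900.CH
open Pool.Agent.H628R3.RO (randomOracle)
open MeasureTheory

theorem result (g : ℕ → ℝ) :
    ((∀ ε : ℝ, 0 < ε → ∃ᶠ n : ℕ in Filter.atTop, g n ≤ 2 ^ (n : ℝ) ^ ε) →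
      ∀ᵐ O ∂randomOracle, ∀ A : Oracle, Close g O A → ∃ L, IsPP A L ∧ ¬ IsPH A L) ∧
    ((¬ ∀ ε : ℝ, 0 < ε → ∃ᶠ n : ℕ in Filter.atTop, g n ≤ 2 ^ (n : ℝ) ^ ε) →
      ∀ O : Oracle, ∃ A : Oracle, Close g O A ∧ (∀ L, IsPSPACE A L → IsP A L) ∧
        ∀ L, IsPP A L → IsP A L) := by
  refine ⟨fun hg => ?_, fun hg O => ?_⟩
  · have h := ae_far_P (fun f hf => (GaugeThreshold.result f).2.1.2 hf) hg
    filter_upwards [h] with O hO A hA
    have h1 := hO A hA
    by_contra h2
    push Not at h2
    exact h1 h2
  · obtain ⟨A, h1, h2⟩ := exists_close_PSPACE hg O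
    exact ⟨A, h1, fun L hL => isP_of_reduces (h2 L hL),
      fun L hL => isP_of_reduces (h2 L (isPSPACE_of_isPP hL))⟩

end Pool.Agent.Results.MP_a54059_lc.ChangedStrings
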