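import Pool.Agent.W895.BC.List

/-!
# `PP` against decision lists of `NP` predicates in linear time

The model is the one of time-space lower bounds: branching programs on `n` Boolean variables,
`2 ^ s` nodes stand for space `s`, the number of queries for the time.

We give functions with computations of the type `PP` which are as simple as possible (at most `β n`
programs, where `β` tends to infinity as slowly as one likes, each of which reads the input once, in
a fixed order, and has `β n * n` nodes; on every input more than half of them give the right answer)
which are in time `k n` and space `n / β n` not computed by decision lists of nondeterministic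
predicates: lists of `ℓ ≤ n / β n` levels, where the level `i` guesses one of `I i` programs and the
product of the numbers `I i + 1` is at most `2 ^ (n / β n)`; the output is given by the first level
which accepts. Such lists are even wrong for more than `2 ^ (n - n / c)` inputs, for every
constant `c`.

Decision lists with `ℓ` levels are the `ℓ`-th level of the Boolean hierarchy over `NP`. They contain
the computations of the type `P^NP` with `q` adaptive queries and `g` guessed bits if
`2 ^ q (g + 1) ≤ n / β n` (the levels are the possible vectors of answers in the lexicographic
order; a level guesses the certificates of the positive answers), so this is a separation of `PP` from a part of the second level of the polynomial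
hierarchy, in linear time.

The function is the majority of `2 d + 1` random quadratic forms in blocks, as in
`MP_153864_lc.LinearTimeMajority`, where Boolean combinations of `O(1)` predicates are treated. New
here is the treatment of long lists: let `T i` be the set of the inputs with `d` or `d + 1` forms
true which are accepted by some level before the level `i`. A program of the level `i` whose
acceptance means `f = v` accepts inputs with `f ≠ v` only in `T i`; by the comparison of the two
layers on large rectangles it accepts few inputs outside `T i`, unless `T i` is large. So `T i`
grows by a factor `C (I i + 1)` only in each step, and starts with a `2 ^ (- n / C)` part of all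
inputs.
-/

set_option autoImplicit false

namespace Pool.Agent.Results.MP_a54059_lc.DecisionLists

open Pool.Agent.H554R2.Sem Pool.Agent.H554R2.Coin

/-- The branching program `P` accepts the input `x` after at most `τ` queries. -/
def Acc {n : ℕ} (P : BP (Fin n) Bool) (τ : ℕ) (x : Pt n) : Prop :=
  ∃ l, P.Comp x l true ∧ l.length ≤ τ

/-- The function `f` has a one-pass computation of the type `PP`: there are `J ≤ D` programs with
at most `D * n` nodes, each of which reads on all inputs the same variables in the same order, each
variable at most once, and on every input `x` more than half of the programs have the output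
`f x`. -/
def OnePassPP (n D : ℕ) (f : Pt n → Bool) : Prop :=
  ∃ (J : ℕ) (V : Fin J → BP (Fin n) Bool), J ≤ D ∧
    (∀ j, Fintype.card (V j).State ≤ D * n ∧
      ∃ l : List (Fin n), l.Nodup ∧ ∀ x : Pt n, ∃ b, (V j).Comp x l b) ∧
    ∀ x, J < 2 * Nat.card {j // ∃ l, (V j).Comp x l (f x)}

/-- The decision list with the levels `i < ℓ`, where the level `i` guesses one of the `I i` programs
`P i ω` and has the value `b i`, and with the last value `b0`, has the output `c` on the input `x`:
`c` is the value of the first level one of whose programs accepts `x` after at most `τ` queries, and
`b0` if there is no such level. -/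
def ListOut {n ℓ : ℕ} {I : Fin ℓ → ℕ} (P : ∀ i, Fin (I i) → BP (Fin n) Bool) (b : Fin ℓ → Bool)
    (b0 : Bool) (τ : ℕ) (x : Pt n) (c : Bool) : Prop :=
  (∃ i, (∃ ω, Acc (P i ω) τ x) ∧ (∀ j < i, ∀ ω, ¬ Acc (P j ω) τ x) ∧ b i = c) ∨
    ((∀ i ω, ¬ Acc (P i ω) τ x) ∧ b0 = c)

/-- Let `β n` tend to infinity, as slowly as one likes. There is a family of Boolean functions
`F n` such that for all constants `k`, `c` and all large `n` the function `F n` has a one-pass
computation of the type `PP` with at most `β n` programs with `β n * n` nodes, but every decision
list with at most `n / β n` levels of nondeterministic programs with `2 ^ (n / β n)` nodes in time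
`k n`, where the product of the numbers `I i + 1` is at most `2 ^ (n / β n)`, gives the wrong output
for more than `2 ^ (n - n / c)` inputs. -/
theorem result (β : ℕ → ℕ) (hβ : Filter.Tendsto β Filter.atTop Filter.atTop) :
    ∃ F : ∀ n, Pt n → Bool, ∀ k c : ℕ, 1 ≤ c → ∃ N, ∀ n ≥ N,
      OnePassPP n (β n) (F n) ∧
      ∀ τ ≤ k * n, ∀ (ℓ : ℕ) (I : Fin ℓ → ℕ) (P : ∀ i, Fin (I i) → BP (Fin n) Bool)
        (b : Fin ℓ → Bool) (b0 : Bool), ℓ ≤ n / β n → ∏ i, (I i + 1) ≤ 2 ^ (n / β n) →
        (∀ i ω, Fintype.card (P i ω).State ≤ 2 ^ (n / β n)) →
        2 ^ n < 2 ^ (n / c) * Nat.card {x // ¬ ListOut P b b0 τ x (F n x)} :=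
  Pool.Agent.W895.BC.list_family β hβ

end Pool.Agent.Results.MP_a54059_lc.DecisionLists
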