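import Pool.Agent.W901.NU.ShB

/-!
# The threshold law for `PP` and the polynomial hierarchy
-/

set_option autoImplicit false

namespace Pool.Agent.Results.MP_a54059_lc.PredictionThreshold

open Filter Pool.Agent.NPC Pool.Agent.W901.NU
open Pool.Agent.W903.GP (InPH)

/-- **The threshold law for `PP` and the polynomial hierarchy.** -/
theorem result (f : ℕ → ℝ) (ε : ℝ) (hε : 0 < ε) (hf : ∀ m : ℕ, 1 ≤ m → f m ≤ Real.sqrt m) :
    (Tendsto (fun m : ℕ => f m / Real.sqrt (Real.log m)) atTop atTop → List.TFAE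
      [∀ L : Set (List Bool), InPPclass L → InPH L,
        ∃ A : Set (List Bool), PPHard A ∧ PredIn InPH f ε A,
        ∀ A : Set (List Bool), InPPclass A → FullyPredIn InPH f A]) ∧
    (∀ c : ℝ, (∀ m : ℕ, 1 ≤ m → f m ≤ c * Real.sqrt (Real.log m)) →
      ∀ A : Set (List Bool), PredIn InPH f ε A) :=
  ⟨fun h => class_law cl_ph (fun A hA hA' => pp_sub_of_hasAdv cl_ph A hA hA') thrSat_hard
    (thr_inPP countP_satCount) hε hf h, fun _ h A => predIn_of_le cl_ph hf h A⟩

end Pool.Agent.Results.MP_a54059_lc.PredictionThreshold
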