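import Pool.Agent.W911.GP.Main

/-!
# Relative to a random oracle, `SPP` is not contained in the polynomial hierarchy

The question is whether `PP` is contained in the polynomial hierarchy. `SPP` is the smallest
gap-definable counting class; it is contained in `PP` (and in `⊕P`, `C₌P`) and low for `PP`.

We show that for almost every oracle `A` the class `SPP` relative to `A` is not contained in the
polynomial hierarchy relative to `A`, even if the latter gets polynomial advice, and even if
instead of a constant number of alternations `O(log n / log log n)` alternations are allowed.
-/

set_option autoImplicit false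

namespace Pool.Agent.Results.MP_a54059_lc.SPPOutsidePH

open Filter MeasureTheory Pool.Agent.W911.AL
open Pool.Agent.W908.SP (IsSPP)

/-- For almost every oracle `A` and every `c` there is a language `L` in `SPP` relative to `A`
which differs from every language `L'` that is decided in polynomial time relative to `A` with
polynomial advice and with `k n` alternating quantifiers, for any function `k`, at all
sufficiently large lengths `n` with `k n ≤ c * log n / log log n`. (For a constant function `k`
these are all sufficiently large lengths.) -/
theorem result : ∀ᵐ A ∂fair, ∀ c : ℕ, ∃ L : Set (List Bool), IsSPP A L ∧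
    ∀ (k : ℕ → ℕ) (L' : Set (List Bool)), IsSigmaPoly A k L' →
      ∀ᶠ n : ℕ in atTop, k n * Nat.log 2 (Nat.log 2 n) ≤ c * Nat.log 2 n →
        ∃ x : List Bool, x.length = n ∧ ¬ (x ∈ L ↔ x ∈ L') :=
  Pool.Agent.W911.GP.main

end Pool.Agent.Results.MP_a54059_lc.SPPOutsidePH
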